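import Mathlib

/-!
# Sun's divisibility conjecture for a weighted alternating binomial-square sum

For `a n = ∑ j, C(n,j)^2 * C(n-j,j)^2 * (-16)^j` and
`S n = ∑_{k < n} (-1)^k * (42 k + 37) * a k` we prove `n ∣ S n` for every `n ≥ 1`.
-/

namespace Pool.Agent.Results.MP_5cc6ce_nt.SunDivisibility

open Finset

/-- The sequence `a(n) = ∑_{j=0}^{n} C(n,j)^2 C(n-j,j)^2 (-16)^j`. -/
def a (n : ℕ) : ℤ :=
  ∑ j ∈ range (n + 1), (n.choose j : ℤ) ^ 2 * ((n - j).choose j : ℤ) ^ 2 * (-16) ^ j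

/-- `S(n) = ∑_{0 ≤ k < n} (-1)^k (42k+37) a(k)`. -/
def S (n : ℕ) : ℤ := ∑ k ∈ range n, (-1) ^ k * (42 * (k : ℤ) + 37) * a k

/-- `V m n = ∑_{k<n} (-1)^k C(k,m)^2`. -/
def V (m n : ℕ) : ℤ := ∑ k ∈ range n, (-1) ^ k * (k.choose m : ℤ) ^ 2

/-- `B m n = ∑_{k<n} (-1)^k (2k+1-m) C(k,m)^2`. -/
def B (m n : ℕ) : ℤ :=
  ∑ k ∈ range n, (-1) ^ k * (2 * (k : ℤ) + 1 - (m : ℤ)) * (k.choose m : ℤ) ^ 2

lemma V_succ (m n : ℕ) : V m (n + 1) = V m n + (-1) ^ n * (n.choose m : ℤ) ^ 2 := by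
  simp [V, sum_range_succ]

lemma B_succ (m n : ℕ) :
    B m (n + 1) = B m n + (-1) ^ n * (2 * (n : ℤ) + 1 - (m : ℤ)) * (n.choose m : ℤ) ^ 2 := by
  simp [B, sum_range_succ]

/-- `C(n,k+1) (k+1) = C(n,k) (n-k)` in the integers. -/
lemma choose_right (n k : ℕ) :
    (n.choose (k + 1) : ℤ) * ((k : ℤ) + 1) = (n.choose k : ℤ) * ((n : ℤ) - (k : ℤ)) := by
  rcases le_or_gt k n with h | h
  · have := Nat.choose_succ_right_eq n k
    have h2 : ((n.choose (k + 1) * (k + 1) : ℕ) : ℤ) = ((n.choose k * (n - k) : ℕ) : ℤ) := by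
      rw [this]
    push_cast [Nat.cast_sub h] at h2
    exact h2
  · rw [Nat.choose_eq_zero_of_lt h, Nat.choose_eq_zero_of_lt (by omega : n < k + 1)]
    simp

/-- `C(n+1,k+1) (k+1) = C(n,k) (n+1)` in the integers. -/
lemma choose_both (n k : ℕ) :
    ((n + 1).choose (k + 1) : ℤ) * ((k : ℤ) + 1) = (n.choose k : ℤ) * ((n : ℤ) + 1) := by
  have := Nat.add_one_mul_choose_eq n k
  have h2 : (((n + 1) * n.choose k : ℕ) : ℤ) = (((n + 1).choose (k + 1) * (k + 1) : ℕ) : ℤ) := by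
    rw [this]
  push_cast at h2
  linarith

/-- Rational form of the choose relations. -/
lemma ratio1 (n m : ℕ) :
    (n.choose (m + 1) : ℚ) = (n.choose m : ℚ) * ((n : ℚ) - m) / ((m : ℚ) + 1) := by
  have h := choose_right n m
  have h2 : (n.choose (m + 1) : ℚ) * ((m : ℚ) + 1) = (n.choose m : ℚ) * ((n : ℚ) - (m : ℚ)) := by
    exact_mod_cast h
  have hm : ((m : ℚ) + 1) ≠ 0 := by positivity
  field_simp
  linarith

lemma ratio2 (n m : ℕ) :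
    ((n + 1).choose (m + 1) : ℚ) = (n.choose m : ℚ) * ((n : ℚ) + 1) / ((m : ℚ) + 1) := by
  have h := choose_both n m
  have h2 : ((n + 1).choose (m + 1) : ℚ) * ((m : ℚ) + 1) = (n.choose m : ℚ) * ((n : ℚ) + 1) := by
    exact_mod_cast h
  have hm : ((m : ℚ) + 1) ≠ 0 := by positivity
  field_simp
  linarith

lemma ratio3 (n m : ℕ) :
    (n.choose (m + 2) : ℚ) =
      (n.choose m : ℚ) * ((n : ℚ) - m) * ((n : ℚ) - m - 1) / (((m : ℚ) + 1) * ((m : ℚ) + 2)) := by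
  have h1 := ratio1 n (m + 1)
  rw [ratio1 n m] at h1
  rw [show m + 2 = m + 1 + 1 from rfl, h1]
  push_cast
  have hm : ((m : ℚ) + 1) ≠ 0 := by positivity
  have hm2 : ((m : ℚ) + 2) ≠ 0 := by positivity
  have hm3 : ((m : ℚ) + 1 + 1) ≠ 0 := by positivity
  field_simp
  ring

/-- Telescoped recurrence for `V` in `m`. -/
lemma V_rec (m n : ℕ) :
    ((m : ℤ) + 2) * (4 * ((m : ℤ) + 2) * V (m + 2) n + ((m : ℤ) + 1) * V m n) =
      (-1) ^ (n + 1) * (n.choose (m + 1) : ℤ) ^ 2 *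
        (2 * (n : ℤ) ^ 2 - (6 * (m : ℤ) + 8) * n + (5 * (m : ℤ) + 8) * ((m : ℤ) + 1)) := by
  induction n with
  | zero => simp [V]
  | succ n ih =>
    rw [V_succ, V_succ]
    have key : ((m : ℤ) + 2) * (4 * ((m : ℤ) + 2) * (n.choose (m + 2) : ℤ) ^ 2
        + ((m : ℤ) + 1) * (n.choose m : ℤ) ^ 2) =
        ((n + 1).choose (m + 1) : ℤ) ^ 2 *
        (2 * ((n : ℤ) + 1) ^ 2 - (6 * (m : ℤ) + 8) * ((n : ℤ) + 1)
          + (5 * (m : ℤ) + 8) * ((m : ℤ) + 1))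
        + (n.choose (m + 1) : ℤ) ^ 2 *
        (2 * (n : ℤ) ^ 2 - (6 * (m : ℤ) + 8) * n + (5 * (m : ℤ) + 8) * ((m : ℤ) + 1)) := by
      have : ((m : ℚ) + 2) * (4 * ((m : ℚ) + 2) * (n.choose (m + 2) : ℚ) ^ 2
        + ((m : ℚ) + 1) * (n.choose m : ℚ) ^ 2) =
        ((n + 1).choose (m + 1) : ℚ) ^ 2 *
        (2 * ((n : ℚ) + 1) ^ 2 - (6 * (m : ℚ) + 8) * ((n : ℚ) + 1)
          + (5 * (m : ℚ) + 8) * ((m : ℚ) + 1))
        + (n.choose (m + 1) : ℚ) ^ 2 *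
        (2 * (n : ℚ) ^ 2 - (6 * (m : ℚ) + 8) * n + (5 * (m : ℚ) + 8) * ((m : ℚ) + 1)) := by
        rw [ratio3 n m, ratio1 n m, ratio2 n m]
        have hm : ((m : ℚ) + 1) ≠ 0 := by positivity
        have hm2 : ((m : ℚ) + 2) ≠ 0 := by positivity
        field_simp
        ring
      exact_mod_cast this
    push_cast
    have e1 : (-1 : ℤ) ^ (n + 1 + 1) = (-1) ^ n := by ring
    have e2 : (-1 : ℤ) ^ (n + 1) = -(-1) ^ n := by ring
    rw [e1]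
    rw [e2] at ih
    linear_combination ih + (-1) ^ n * key

/-- Telescoped recurrence for `B` in `m`. -/
lemma B_rec (m n : ℕ) :
    ((m : ℤ) + 2) ^ 2 * (4 * ((m : ℤ) + 1) * B (m + 2) n + ((m : ℤ) + 2) * B m n) =
      (-1) ^ (n + 1) * (n.choose (m + 1) : ℤ) ^ 2 * ((m : ℤ) + 1) *
        (4 * (n : ℤ) ^ 3 - (14 * (m : ℤ) + 20) * (n : ℤ) ^ 2
          + 4 * ((m : ℤ) + 1) * (4 * (m : ℤ) + 7) * n
          - ((m : ℤ) + 2) * (5 * (m : ℤ) ^ 2 + 8 * (m : ℤ) + 2)) := by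
  induction n with
  | zero => simp [B]
  | succ n ih =>
    rw [B_succ, B_succ]
    have key : ((m : ℤ) + 2) ^ 2 * (4 * ((m : ℤ) + 1) *
        ((2 * (n : ℤ) + 1 - ((m : ℤ) + 2)) * (n.choose (m + 2) : ℤ) ^ 2)
        + ((m : ℤ) + 2) * ((2 * (n : ℤ) + 1 - (m : ℤ)) * (n.choose m : ℤ) ^ 2)) =
        ((n + 1).choose (m + 1) : ℤ) ^ 2 * ((m : ℤ) + 1) *
        (4 * ((n : ℤ) + 1) ^ 3 - (14 * (m : ℤ) + 20) * ((n : ℤ) + 1) ^ 2
          + 4 * ((m : ℤ) + 1) * (4 * (m : ℤ) + 7) * ((n : ℤ) + 1)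
          - ((m : ℤ) + 2) * (5 * (m : ℤ) ^ 2 + 8 * (m : ℤ) + 2))
        + (n.choose (m + 1) : ℤ) ^ 2 * ((m : ℤ) + 1) *
        (4 * (n : ℤ) ^ 3 - (14 * (m : ℤ) + 20) * (n : ℤ) ^ 2
          + 4 * ((m : ℤ) + 1) * (4 * (m : ℤ) + 7) * n
          - ((m : ℤ) + 2) * (5 * (m : ℤ) ^ 2 + 8 * (m : ℤ) + 2)) := by
      have : ((m : ℚ) + 2) ^ 2 * (4 * ((m : ℚ) + 1) *
        ((2 * (n : ℚ) + 1 - ((m : ℚ) + 2)) * (n.choose (m + 2) : ℚ) ^ 2)
        + ((m : ℚ) + 2) * ((2 * (n : ℚ) + 1 - (m : ℚ)) * (n.choose m : ℚ) ^ 2)) =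
        ((n + 1).choose (m + 1) : ℚ) ^ 2 * ((m : ℚ) + 1) *
        (4 * ((n : ℚ) + 1) ^ 3 - (14 * (m : ℚ) + 20) * ((n : ℚ) + 1) ^ 2
          + 4 * ((m : ℚ) + 1) * (4 * (m : ℚ) + 7) * ((n : ℚ) + 1)
          - ((m : ℚ) + 2) * (5 * (m : ℚ) ^ 2 + 8 * (m : ℚ) + 2))
        + (n.choose (m + 1) : ℚ) ^ 2 * ((m : ℚ) + 1) *
        (4 * (n : ℚ) ^ 3 - (14 * (m : ℚ) + 20) * (n : ℚ) ^ 2
          + 4 * ((m : ℚ) + 1) * (4 * (m : ℚ) + 7) * n
          - ((m : ℚ) + 2) * (5 * (m : ℚ) ^ 2 + 8 * (m : ℚ) + 2)) := by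
        rw [ratio3 n m, ratio1 n m, ratio2 n m]
        have hm : ((m : ℚ) + 1) ≠ 0 := by positivity
        have hm2 : ((m : ℚ) + 2) ≠ 0 := by positivity
        field_simp
        ring
      exact_mod_cast this
    push_cast
    have e1 : (-1 : ℤ) ^ (n + 1 + 1) = (-1) ^ n := by ring
    have e2 : (-1 : ℤ) ^ (n + 1) = -(-1) ^ n := by ring
    rw [e1]
    rw [e2] at ih
    linear_combination ih + (-1) ^ n * key

/-- `z i = ∑_{l ≤ i} C(i+l,i)^2`. -/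
def z (i : ℕ) : ℤ := ∑ l ∈ range (i + 1), ((i + l).choose i : ℤ) ^ 2

lemma z_partial (i L : ℕ) :
    ∑ l ∈ range L, (8 * (2 * (i : ℤ) + 3) * ((i + 1 + l).choose (i + 1) : ℤ) ^ 2
      - 4 * ((i : ℤ) + 1) * ((i + l).choose i : ℤ) ^ 2) =
      4 * (3 * (i : ℤ) + 3 + 2 * L) * ((i + L).choose (i + 1) : ℤ) ^ 2 := by
  induction L with
  | zero => simp
  | succ L ih =>
    rw [sum_range_succ, ih]
    have key : 4 * (3 * (i : ℚ) + 3 + 2 * L) * ((i + L).choose (i + 1) : ℚ) ^ 2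
        + (8 * (2 * (i : ℚ) + 3) * ((i + L + 1).choose (i + 1) : ℚ) ^ 2
          - 4 * ((i : ℚ) + 1) * ((i + L).choose i : ℚ) ^ 2) =
        4 * (3 * (i : ℚ) + 3 + 2 * ((L : ℚ) + 1)) * ((i + L + 1).choose (i + 1) : ℚ) ^ 2 := by
      rw [ratio1, ratio2]
      push_cast
      have hm : ((i : ℚ) + 1) ≠ 0 := by positivity
      field_simp
      ring
    have e : i + 1 + L = i + L + 1 := by ring
    have e' : i + (L + 1) = i + L + 1 := by ring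
    rw [e, e']
    exact_mod_cast key

lemma z_rec (i : ℕ) :
    8 * (2 * (i : ℤ) + 3) * z (i + 1) =
      4 * ((i : ℤ) + 1) * z i + (21 * (i : ℤ) + 29) * ((2 * (i + 1)).choose (i + 1) : ℤ) ^ 2 := by
  have h := z_partial i (i + 1)
  rw [sum_sub_distrib, ← mul_sum, ← mul_sum] at h
  have hz : z (i + 1) = ∑ l ∈ range (i + 1), ((i + 1 + l).choose (i + 1) : ℤ) ^ 2
      + ((i + 1 + (i + 1)).choose (i + 1) : ℤ) ^ 2 := by
    unfold z
    rw [sum_range_succ]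
  have hz2 : z i = ∑ l ∈ range (i + 1), ((i + l).choose i : ℤ) ^ 2 := rfl
  have hc : ((2 * (i + 1)).choose (i + 1) : ℤ) = 2 * ((i + (i + 1)).choose (i + 1) : ℤ) := by
    have h1 := choose_both (2 * i + 1) i
    have h2 := choose_right (2 * i + 1) i
    have e1 : 2 * i + 1 + 1 = 2 * (i + 1) := by ring
    have e2 : i + (i + 1) = 2 * i + 1 := by ring
    rw [e1] at h1
    rw [e2]
    push_cast at h1 h2
    have hne : ((i : ℤ) + 1) ≠ 0 := by positivity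
    have : ((2 * (i + 1)).choose (i + 1) : ℤ) * ((i : ℤ) + 1) =
        (2 * ((2 * i + 1).choose (i + 1) : ℤ)) * ((i : ℤ) + 1) := by
      linear_combination h1 - 2 * h2
    exact mul_right_cancel₀ hne this
  have e3 : i + 1 + (i + 1) = 2 * (i + 1) := by ring
  rw [e3] at hz
  rw [hz, hz2, hc]
  rw [hc] at *
  push_cast at h
  linear_combination h

/-- The combination of consecutive `V`s appearing after Abel summation. -/
def G (i n : ℕ) : ℤ := 8 * ((i : ℤ) + 1) * V (2 * i + 2) n + (2 * (i : ℤ) + 1) * V (2 * i) n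

/-- Abel summation for the sum with weights `(21 i + 8) C(2i,i)^2 (-16)^i`. -/
lemma abel (n N : ℕ) :
    ∑ i ∈ range (N + 1), (21 * (i : ℤ) + 8) * ((2 * i).choose i : ℤ) ^ 2 * (-16) ^ i * V (2 * i) n =
      8 * ∑ i ∈ range (N + 1), (-16) ^ i * G i n * z i
        + 4 * ((N : ℤ) + 1) * z N * (-16) ^ (N + 1) * V (2 * (N + 1)) n := by
  induction N with
  | zero =>
    simp [G, z]
    ring
  | succ N ih =>
    rw [sum_range_succ, ih, sum_range_succ _ (N + 1)]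
    have hz := z_rec N
    unfold G
    push_cast
    have e1 : 2 * (N + 1) + 2 = 2 * (N + 1 + 1) := by ring
    rw [e1]
    have hp : (-16 : ℤ) ^ (N + 1 + 1) = -16 * (-16) ^ (N + 1) := by ring
    rw [hp]
    linear_combination (-(-16 : ℤ) ^ (N + 1) * V (2 * (N + 1)) n) * hz

lemma V_eq_zero {m n : ℕ} (h : n ≤ m) : V m n = 0 := by
  unfold V
  apply sum_eq_zero
  intro k hk
  rw [mem_range] at hk
  rw [Nat.choose_eq_zero_of_lt (by omega)]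
  simp

/-- `n ∣ G i n`. -/
lemma dvd_G (i n : ℕ) : (n : ℤ) ∣ G i n := by
  rcases Nat.eq_zero_or_pos n with h0 | hpos
  · subst h0
    simp [G, V]
  have h := V_rec (2 * i) n
  have hG : ((i : ℤ) + 1) * G i n = (-1) ^ (n + 1) * (n.choose (2 * i + 1) : ℤ) ^ 2 *
      ((n : ℤ) ^ 2 - (6 * (i : ℤ) + 4) * n + (5 * (i : ℤ) + 4) * (2 * (i : ℤ) + 1)) := by
    unfold G
    push_cast at h
    have h2 : (2 : ℤ) * (((i : ℤ) + 1) * (8 * ((i : ℤ) + 1) * V (2 * i + 2) n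
        + (2 * (i : ℤ) + 1) * V (2 * i) n)) = 2 * ((-1) ^ (n + 1) * (n.choose (2 * i + 1) : ℤ) ^ 2 *
      ((n : ℤ) ^ 2 - (6 * (i : ℤ) + 4) * n + (5 * (i : ℤ) + 4) * (2 * (i : ℤ) + 1))) := by
      linear_combination h
    exact mul_left_cancel₀ (by norm_num) h2
  have hc1 := choose_both n (2 * i + 1)
  push_cast at hc1
  obtain ⟨n', rfl⟩ : ∃ n', n = n' + 1 := ⟨n - 1, by omega⟩
  have hc2 := choose_both n' (2 * i)
  push_cast at hc1 hc2
  have hne : ((i : ℤ) + 1) ≠ 0 := by positivity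
  have key : (((n' + 1 : ℕ) : ℤ) + 1) * G i (n' + 1) =
      ((n' + 1 : ℕ) : ℤ) * (2 * (-1) ^ (n' + 1 + 1) * ((n' + 1 + 1).choose (2 * i + 1 + 1) : ℤ) *
        (((n' + 1).choose (2 * i + 1) : ℤ) * (((n' + 1 : ℕ) : ℤ) - (6 * (i : ℤ) + 4))
          + (n'.choose (2 * i) : ℤ) * (5 * (i : ℤ) + 4))) := by
    apply mul_left_cancel₀ hne
    push_cast at hG ⊢
    linear_combination ((n' : ℤ) + 1 + 1) * hG
      - (-1) ^ (n' + 1 + 1) * ((n' + 1).choose (2 * i + 1) : ℤ) *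
        (((n' : ℤ) + 1) ^ 2 - (6 * (i : ℤ) + 4) * ((n' : ℤ) + 1)
          + (5 * (i : ℤ) + 4) * (2 * (i : ℤ) + 1)) * hc1
      + 2 * ((i : ℤ) + 1) * (-1) ^ (n' + 1 + 1) * ((n' + 1 + 1).choose (2 * i + 1 + 1) : ℤ) *
        (5 * (i : ℤ) + 4) * hc2
  have hcop : IsCoprime (((n' + 1 : ℕ) : ℤ)) ((((n' + 1 : ℕ) : ℤ)) + 1) := by
    refine ⟨-1, 1, by ring⟩
  exact hcop.dvd_of_dvd_mul_left (Dvd.intro _ key.symm)

/-- The combination of consecutive `B`s. -/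
def H (j n : ℕ) : ℤ := 2 * (2 * (j : ℤ) + 1) * B (2 * j + 2) n + ((j : ℤ) + 1) * B (2 * j) n

lemma dvd_H (j n : ℕ) : (n : ℤ) ∣ H j n := by
  rcases Nat.eq_zero_or_pos n with h0 | hpos
  · subst h0
    simp [H, B]
  have h := B_rec (2 * j) n
  have hH : 2 * ((j : ℤ) + 1) ^ 2 * H j n =
      (-1) ^ (n + 1) * (n.choose (2 * j + 1) : ℤ) ^ 2 * (2 * (j : ℤ) + 1) *
      ((n : ℤ) ^ 3 - (7 * (j : ℤ) + 5) * (n : ℤ) ^ 2
        + (2 * (j : ℤ) + 1) * (8 * (j : ℤ) + 7) * n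
        - ((j : ℤ) + 1) * (10 * (j : ℤ) ^ 2 + 8 * (j : ℤ) + 1)) := by
    unfold H
    push_cast at h
    apply mul_left_cancel₀ (by norm_num : (4 : ℤ) ≠ 0)
    linear_combination h
  have hc1 := choose_both n (2 * j + 1)
  push_cast at hc1
  obtain ⟨n', rfl⟩ : ∃ n', n = n' + 1 := ⟨n - 1, by omega⟩
  have hc2 := choose_both n' (2 * j)
  push_cast at hc1 hc2
  have hne : (2 * ((j : ℤ) + 1) ^ 2) ≠ 0 := by positivity
  have key : (((n' + 1 : ℕ) : ℤ) + 1) ^ 2 * H j (n' + 1) =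
      ((n' + 1 : ℕ) : ℤ) * ((-1) ^ (n' + 1 + 1) * ((n' + 1 + 1).choose (2 * j + 1 + 1) : ℤ) *
        (2 * (2 * (j : ℤ) + 1) * ((n' + 1 + 1).choose (2 * j + 1 + 1) : ℤ) *
          (((n' + 1 : ℕ) : ℤ) ^ 2 - (7 * (j : ℤ) + 5) * ((n' + 1 : ℕ) : ℤ)
            + (2 * (j : ℤ) + 1) * (8 * (j : ℤ) + 7))
          - (((n' + 1 : ℕ) : ℤ) + 1) * (n'.choose (2 * j) : ℤ) *
            (10 * (j : ℤ) ^ 2 + 8 * (j : ℤ) + 1))) := by
    apply mul_left_cancel₀ hne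
    push_cast at hH ⊢
    have hc1' : 2 * ((j : ℤ) + 1) * ((n' + 1 + 1).choose (2 * j + 1 + 1) : ℤ) =
        ((n' + 1).choose (2 * j + 1) : ℤ) * ((n' : ℤ) + 1 + 1) := by
      linear_combination hc1
    have hsq : 4 * ((j : ℤ) + 1) ^ 2 * ((n' + 1 + 1).choose (2 * j + 1 + 1) : ℤ) ^ 2 =
        ((n' + 1).choose (2 * j + 1) : ℤ) ^ 2 * ((n' : ℤ) + 1 + 1) ^ 2 := by
      linear_combination (2 * ((j : ℤ) + 1) * ((n' + 1 + 1).choose (2 * j + 1 + 1) : ℤ) +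
        ((n' + 1).choose (2 * j + 1) : ℤ) * ((n' : ℤ) + 1 + 1)) * hc1'
    -- product relation
    have hprod : 2 * ((j : ℤ) + 1) * (2 * (j : ℤ) + 1) *
        ((n' + 1 + 1).choose (2 * j + 1 + 1) : ℤ) =
        (n'.choose (2 * j) : ℤ) * ((n' : ℤ) + 1) * ((n' : ℤ) + 1 + 1) := by
      linear_combination (2 * (j : ℤ) + 1) * hc1' + ((n' : ℤ) + 1 + 1) * hc2
    linear_combination ((n' : ℤ) + 1 + 1) ^ 2 * hH
      - (-1) ^ (n' + 1 + 1) * (2 * (j : ℤ) + 1) *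
        (((n' : ℤ) + 1) ^ 3 - (7 * (j : ℤ) + 5) * ((n' : ℤ) + 1) ^ 2
        + (2 * (j : ℤ) + 1) * (8 * (j : ℤ) + 7) * ((n' : ℤ) + 1)
        - ((j : ℤ) + 1) * (10 * (j : ℤ) ^ 2 + 8 * (j : ℤ) + 1)) * hsq
      - 2 * ((j : ℤ) + 1) ^ 2 * (-1) ^ (n' + 1 + 1) *
        ((n' + 1 + 1).choose (2 * j + 1 + 1) : ℤ) *
        (10 * (j : ℤ) ^ 2 + 8 * (j : ℤ) + 1) * hprod
  have hcop : IsCoprime (((n' + 1 : ℕ) : ℤ)) (((((n' + 1 : ℕ) : ℤ)) + 1) ^ 2) := by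
    apply IsCoprime.pow_right
    refine ⟨-1, 1, by ring⟩
  exact hcop.dvd_of_dvd_mul_left (Dvd.intro _ key.symm)

lemma B_zero (n : ℕ) : B 0 n = (-1) ^ (n + 1) * n := by
  induction n with
  | zero => simp [B]
  | succ n ih =>
    rw [B_succ, ih]
    push_cast
    simp
    ring

/-- `n ∣ C(2j,j) * B (2j) n`. -/
lemma dvd_beta (j n : ℕ) : (n : ℤ) ∣ ((2 * j).choose j : ℤ) * B (2 * j) n := by
  induction j with
  | zero =>
    simp only [Nat.mul_zero, Nat.choose_self, Nat.cast_one, one_mul]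
    rw [B_zero]
    exact Dvd.intro_left _ rfl
  | succ j ih =>
    have hcat : ((2 * j).choose j : ℤ) = (catalan j : ℤ) * ((j : ℤ) + 1) := by
      have h := succ_mul_catalan_eq_centralBinom j
      rw [Nat.centralBinom_eq_two_mul_choose] at h
      have h2 : (((j + 1) * catalan j : ℕ) : ℤ) = (((2 * j).choose j : ℕ) : ℤ) := by rw [h]
      push_cast at h2
      linarith
    have hcat2 : ((2 * (j + 1)).choose (j + 1) : ℤ) = 2 * (2 * (j : ℤ) + 1) * (catalan j : ℤ) := by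
      have h := Nat.succ_mul_centralBinom_succ j
      rw [Nat.centralBinom_eq_two_mul_choose, Nat.centralBinom_eq_two_mul_choose] at h
      have h2 : (((j + 1) * (2 * (j + 1)).choose (j + 1) : ℕ) : ℤ) =
          ((2 * (2 * j + 1) * (2 * j).choose j : ℕ) : ℤ) := by rw [h]
      push_cast at h2
      rw [hcat] at h2
      have hne : ((j : ℤ) + 1) ≠ 0 := by positivity
      apply mul_left_cancel₀ hne
      linear_combination h2
    have hrel : ((2 * (j + 1)).choose (j + 1) : ℤ) * B (2 * (j + 1)) n =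
        (catalan j : ℤ) * H j n - ((2 * j).choose j : ℤ) * B (2 * j) n := by
      rw [hcat, hcat2]
      unfold H
      rw [show 2 * j + 2 = 2 * (j + 1) by ring]
      ring
    rw [hrel]
    exact dvd_sub (Dvd.dvd.mul_left (dvd_H j n) _) ih

/-- `C(k,j) C(k-j,j) = C(k,2j) C(2j,j)`. -/
lemma choose_prod (k j : ℕ) :
    (k.choose j) * ((k - j).choose j) = (k.choose (2 * j)) * ((2 * j).choose j) := by
  rcases le_or_gt (2 * j) k with h | h
  · have h1 := Nat.choose_mul (n := k) (k := 2 * j) (s := j) (by omega)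
    rw [h1]
    congr 2
    omega
  · rw [Nat.choose_eq_zero_of_lt h, Nat.choose_eq_zero_of_lt (by omega : k - j < j)]
    simp

lemma a_eq (k N : ℕ) (h : k < N) :
    a k = ∑ j ∈ range N, (k.choose (2 * j) : ℤ) ^ 2 * ((2 * j).choose j : ℤ) ^ 2 * (-16) ^ j := by
  unfold a
  have h1 : ∀ j ∈ range (k + 1), (k.choose j : ℤ) ^ 2 * ((k - j).choose j : ℤ) ^ 2 * (-16) ^ j =
      (k.choose (2 * j) : ℤ) ^ 2 * ((2 * j).choose j : ℤ) ^ 2 * (-16) ^ j := by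
    intro j _
    have := choose_prod k j
    have h2 : (k.choose j : ℤ) * ((k - j).choose j : ℤ) =
        (k.choose (2 * j) : ℤ) * ((2 * j).choose j : ℤ) := by exact_mod_cast this
    rw [← mul_pow, ← mul_pow, h2]
  rw [sum_congr rfl h1]
  apply sum_subset
  · intro x hx
    rw [mem_range] at *
    omega
  · intro x hx hx2
    rw [mem_range] at *
    rw [Nat.choose_eq_zero_of_lt (by omega)]
    simp

lemma S_eq (n : ℕ) :
    S n = ∑ j ∈ range n, ((2 * j).choose j : ℤ) ^ 2 * (-16) ^ j *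
      (21 * B (2 * j) n + (42 * (j : ℤ) + 16) * V (2 * j) n) := by
  unfold S
  have h1 : ∀ k ∈ range n, (-1 : ℤ) ^ k * (42 * (k : ℤ) + 37) * a k =
      ∑ j ∈ range n, (-1 : ℤ) ^ k * (42 * (k : ℤ) + 37) *
        ((k.choose (2 * j) : ℤ) ^ 2 * ((2 * j).choose j : ℤ) ^ 2 * (-16) ^ j) := by
    intro k hk
    rw [mem_range] at hk
    rw [a_eq k n hk, mul_sum]
  rw [sum_congr rfl h1, sum_comm]
  apply sum_congr rfl
  intro j _
  unfold B V
  rw [mul_sum, mul_sum, ← sum_add_distrib, mul_sum]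
  apply sum_congr rfl
  intro k _
  push_cast
  ring

/-- **Sun's conjecture.** For every `n ≥ 1`, `n` divides `S(n)`. -/
theorem result : ∀ n : ℕ, 1 ≤ n → (n : ℤ) ∣ S n := by
  intro n hn
  rw [S_eq]
  have hsplit : ∑ j ∈ range n, ((2 * j).choose j : ℤ) ^ 2 * (-16) ^ j *
      (21 * B (2 * j) n + (42 * (j : ℤ) + 16) * V (2 * j) n) =
      21 * ∑ j ∈ range n, (((2 * j).choose j : ℤ) * (-16) ^ j) *
        (((2 * j).choose j : ℤ) * B (2 * j) n)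
      + 2 * ∑ j ∈ range n, (21 * (j : ℤ) + 8) * ((2 * j).choose j : ℤ) ^ 2 * (-16) ^ j *
        V (2 * j) n := by
    rw [mul_sum, mul_sum, ← sum_add_distrib]
    apply sum_congr rfl
    intro j _
    ring
  rw [hsplit]
  obtain ⟨N, rfl⟩ : ∃ N, n = N + 1 := ⟨n - 1, by omega⟩
  apply dvd_add
  · apply Dvd.dvd.mul_left
    apply dvd_sum
    intro j _
    exact Dvd.dvd.mul_left (dvd_beta j (N + 1)) _
  · apply Dvd.dvd.mul_left
    rw [abel, V_eq_zero (by omega : N + 1 ≤ 2 * (N + 1)), mul_zero, add_zero]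
    apply Dvd.dvd.mul_left
    apply dvd_sum
    intro i _
    exact Dvd.dvd.mul_right (Dvd.dvd.mul_left (dvd_G i (N + 1)) _) _

end Pool.Agent.Results.MP_5cc6ce_nt.SunDivisibility
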